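import Pool.Agent.W889.SR.Stm2

/-!
Project SR2 (helper889), part LOW: no `Π_{l+1}` Scott sentence.
-/

set_option autoImplicit false

namespace Pool.Agent.W696.SR

open Set Ordinal Pool.Agent.W889.SR

theorem low : LOW_stmt := by
  classical
  intro H FR k1 l hl B _ t o ht ho hc0 hyp
  obtain ⟨c0, hc0⟩ := hc0
  have hforest : IsForest t := ⟨ht.refl, ht.antisymm, ht.trans, ht.chain⟩
  have clsymm : ∀ x y : B, CL l t x t y → CL l t y t x := fun x y h γ hγ =>
    H.symm _ _ _ _ _ _ _ (h γ hγ)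
  have cltrans : ∀ x y z : B, CL l t x t y → CL l t y t z → CL l t x t z := fun x y z h h' γ hγ =>
    H.trans _ _ _ _ _ _ _ _ _ _ (h γ hγ) (h' γ hγ)
  have neg : ∀ x y : B, ∃ γ, γ < l ∧ (¬ CL l t x t y → ¬ CE γ t x t y) := by
    intro x y
    by_cases h : CL l t x t y
    · exact ⟨0, hl.1, fun h' => absurd h h'⟩
    · unfold CL at h
      push Not at h
      obtain ⟨γ, h1, h2⟩ := h
      exact ⟨γ, h1, fun _ => h2⟩
  set P : Set B := {c | Ch t o c ∧ ¬ CL l t c t c0} with hP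
  set Al : Set B := {c | Ch t o c} with hAl
  -- (1)
  have inf : ∀ b, Ch t o b → ∀ γ, γ < l → {b' | b' ∈ P ∧ CE γ t b t b'}.Infinite := by
    intro b hb γ hγ hfin
    choose f hf1 hf2 using fun c => neg c b
    obtain ⟨g0, hg1, hg2⟩ := neg b c0
    have hmax : ∃ κ0, κ0 < l ∧ ∀ c ∈ {b' | b' ∈ P ∧ CE γ t b t b'}, f c ≤ κ0 := by
      rcases Set.eq_empty_or_nonempty {b' | b' ∈ P ∧ CE γ t b t b'} with he | hne
      · rw [he]
        exact ⟨0, hl.1, fun c hc => absurd hc (Set.notMem_empty c)⟩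
      · obtain ⟨a, -, ha⟩ := Set.exists_max_image _ f hfin hne
        exact ⟨f a, hf1 a, ha⟩
    obtain ⟨κ0, hκ0, hκ⟩ := hmax
    obtain ⟨b', h1, h2, h3⟩ := hyp b hb (max (max γ g0) κ0) (max_lt (max_lt hγ hg1) hκ0)
    have hbP : b' ∈ P := by
      refine ⟨h1, fun h4 => ?_⟩
      by_cases h5 : CL l t b t c0
      · exact h3 (cltrans _ _ _ h5 (clsymm _ _ h4))
      · refine hg2 h5 (H.trans _ _ _ _ _ _ _ _ _ _ (H.mono _ _ ?_ _ _ _ _ _ _ h2) (h4 g0 hg1))
        exact (le_max_right _ _).trans (le_max_left _ _)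
    have hS : b' ∈ {b' | b' ∈ P ∧ CE γ t b t b'} :=
      ⟨hbP, H.mono _ _ ((le_max_left _ _).trans (le_max_left _ _)) _ _ _ _ _ _ h2⟩
    by_cases h6 : CL l t b' t b
    · exact h3 (clsymm _ _ h6)
    · refine hf2 b' h6 (H.symm _ _ _ _ _ _ _ (H.mono _ _ ?_ _ _ _ _ _ _ h2))
      exact (hκ b' hS).trans (le_max_right _ _)
  have hPAl : ∀ c ∈ P, Ch t o c := fun c hc => hc.1
  have hPne : ∃ c, c ∈ P := by
    obtain ⟨c, hc, -⟩ := (inf c0 hc0 0 hl.1).nonempty
    exact ⟨c, hc⟩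
  obtain ⟨cP, hcP⟩ := hPne
  set Ns : Set B := {z | z = o ∨ ∃ c ∈ P, t c z} with hNs
  have hAluniv : {z | z = o ∨ ∃ c ∈ Al, t c z} = (univ : Set B) := by
    refine Set.eq_univ_of_forall fun z => ?_
    by_cases hz : o = z
    · exact Or.inl hz.symm
    · obtain ⟨c, h1, h2⟩ := H.exc B t ht o z (ho z) hz
      exact Or.inr ⟨c, h1, h2⟩
  -- (2)
  have two : ∀ γ, γ < l → ∀ (ι : Type) [Fintype ι] (d : ι → B), (∀ i, d i ∈ Ns) →
      BF γ t Ns d t univ d ∧ BF γ t univ d t Ns d := by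
    intro γ hγ ι _ d hd
    have hc : ∀ i, ∃ c, c ∈ P ∧ (d i = o ∨ t c (d i)) := by
      intro i
      rcases hd i with h | ⟨c, h1, h2⟩
      · exact ⟨cP, hcP, Or.inl h⟩
      · exact ⟨c, h1, Or.inr h2⟩
    choose c hc1 hc2 using hc
    have hm : ∀ P' Q' : Set B, (∀ x ∈ P, x ∈ P' ∧ x ∈ Q') →
        Mtch γ t t o o P' Q' d d ((Finset.univ : Finset ι).toList.map fun i => (c i, c i)) := by
      intro P' Q' hPQ
      have hdiag : ∀ p ∈ (Finset.univ : Finset ι).toList.map (fun i => (c i, c i)),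
          ∃ i, p = (c i, c i) := by
        intro p hp
        obtain ⟨i, -, hi⟩ := List.mem_map.1 hp
        exact ⟨i, hi.symm⟩
      refine ⟨?_, ?_, ?_, ?_, ?_⟩
      · intro p hp
        obtain ⟨i, rfl⟩ := hdiag p hp
        exact hPQ _ (hc1 i)
      · intro p hp q hq
        obtain ⟨i, rfl⟩ := hdiag p hp
        obtain ⟨j, rfl⟩ := hdiag q hq
        exact Iff.rfl
      · intro i
        rcases hc2 i with h | h
        · exact Or.inl ⟨h, h⟩
        · exact Or.inr ⟨(c i, c i), List.mem_map.2 ⟨i, by simp, rfl⟩, h, h⟩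
      · intro p hp i
        obtain ⟨j, rfl⟩ := hdiag p hp
        exact Iff.rfl
      · intro p hp
        obtain ⟨j, rfl⟩ := hdiag p hp
        exact BF.refl _ _ _ _
    constructor
    · have h := FR γ B B t t hforest hforest o o P Al hPAl (fun _ h => h)
        (fun c hc => (inf c hc.1 γ hγ).mono fun d hd => ⟨hd.1.1, hd.2⟩)
        (fun d hd => (inf d hd γ hγ).mono fun c hc => ⟨hc.1, H.symm _ _ _ _ _ _ _ hc.2⟩)
        ι d d _ (hm P Al fun x hx => ⟨hx, hx.1⟩)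
      rwa [hAluniv] at h
    · have h := FR γ B B t t hforest hforest o o Al P (fun _ h => h) hPAl
        (fun c hc => inf c hc γ hγ)
        (fun d hd => (inf d hd.1 γ hγ).mono fun c hc => ⟨hc.1.1, H.symm _ _ _ _ _ _ _ hc.2⟩)
        ι d d _ (hm Al P fun x hx => ⟨hx.1, hx⟩)
      rwa [hAluniv] at h
  -- (3)
  have three : BF (l + 1) t univ (Fin.elim0 : Fin 0 → B) t Ns (Fin.elim0 : Fin 0 → B) := by
    rw [BF_iff]
    refine ⟨SameQf.refl _ _, fun γ hγ k d hd => ⟨d, fun _ => trivial, ?_⟩⟩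
    have hN : ∀ i, (Sum.elim (Fin.elim0 : Fin 0 → B) d) i ∈ Ns := by
      rintro (i | i)
      · exact i.elim0
      · exact hd i
    have hγ' : γ ≤ l := Order.lt_succ_iff.1 (by rwa [← Ordinal.add_one_eq_succ])
    rcases hγ'.lt_or_eq with h | h
    · exact (two γ h _ _ hN).1
    · subst h
      rw [BF_iff]
      refine ⟨SameQf.refl _ _, fun γ' hγ' k' d' hd' => ?_⟩
      have h1 := (two (γ' + 1) (hl.2 γ' hγ') _ _ hN).1
      rw [BF_iff] at h1
      exact h1.2 γ' (by rw [Ordinal.add_one_eq_succ]; exact Order.lt_succ γ') k' d' hd'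
  -- (4)
  rintro ⟨ψ, hpi, hsc⟩
  let N : Type := {z : B // z ∈ Ns}
  let s : N → N → Prop := fun x y => t x.1 y.1
  have emb0 := H.emb (l + 1) N B s t Subtype.val univ Ns Subtype.val_injective
    (fun _ _ => Iff.rfl) (fun x _ => x.2) (fun y hy => ⟨⟨y, hy⟩, trivial, rfl⟩) (Fin 0)
    (Fin.elim0 : Fin 0 → N)
  have e0 : (Subtype.val ∘ (Fin.elim0 : Fin 0 → N)) = (Fin.elim0 : Fin 0 → B) :=
    funext fun i => i.elim0
  rw [e0] at emb0
  have four : BF (l + 1) t univ (Fin.elim0 : Fin 0 → B) s univ (Fin.elim0 : Fin 0 → N) :=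
    three.trans emb0.2
  have hB : Sat t ψ := (hsc B t).2 ⟨RelIso.refl t⟩
  have hNs' : Sat s ψ := (k1 (l + 1) 0 ψ B N t Fin.elim0 s Fin.elim0 four).1 hpi hB
  obtain ⟨g⟩ := (hsc N s).1 hNs'
  have hoN : o ∈ Ns := Or.inl rfl
  have hgo : (g o).1 = o := by
    apply ht.antisymm _ _ _ (ho _)
    have h1 : t o (g.symm ⟨o, hoN⟩) := ho _
    have h2 := g.map_rel_iff.2 h1
    rw [g.apply_symm_apply] at h2
    exact h2
  have hgo' : g o = ⟨o, hoN⟩ := Subtype.ext hgo
  have hc1P : (g c0).1 ∈ P := by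
    rcases (g c0).2 with h | ⟨c, h1, h2⟩
    · exfalso
      have h3 : g c0 = g o := by rw [hgo']; exact Subtype.ext h
      exact hc0.2.1 (g.injective h3).symm
    · have hcN : c ∈ Ns := Or.inr ⟨c, h1, ht.refl c⟩
      have h3 : t (g.symm ⟨c, hcN⟩) c0 := by
        rw [← g.map_rel_iff, g.apply_symm_apply]
        exact h2
      rcases hc0.2.2 _ (ho _) h3 with h4 | h4
      · exfalso
        have h5 : (⟨c, hcN⟩ : N) = ⟨o, hoN⟩ := by
          rw [← hgo', ← h4, g.apply_symm_apply]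
        exact h1.1.2.1 (congrArg Subtype.val h5).symm
      · have h5 : g c0 = ⟨c, hcN⟩ := by
          rw [← h4, g.apply_symm_apply]
        rw [h5]
        exact h1
  apply hc1P.2
  apply clsymm
  intro γ hγ
  have h1 : CE γ t c0 s (g c0) := by
    have := H.emb γ B N t s g {z | t c0 z} {z | s (g c0) z} g.injective
      (fun x y => g.map_rel_iff.symm) (fun x hx => g.map_rel_iff.2 hx)
      (fun y hy => ⟨g.symm y, by
        change t c0 (g.symm y)
        rw [← g.map_rel_iff, g.apply_symm_apply]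
        exact hy, g.apply_symm_apply y⟩) Unit (fun _ => c0)
    exact this
  have h2 : CE γ s (g c0) t (g c0).1 := by
    have := H.emb γ N B s t Subtype.val {z | s (g c0) z} {z | t (g c0).1 z}
      Subtype.val_injective (fun x y => Iff.rfl) (fun x hx => hx)
      (fun y hy => ⟨⟨y, Or.inr ⟨_, hc1P, hy⟩⟩, hy, rfl⟩) Unit (fun _ => g c0)
    exact this
  exact H.trans _ _ _ _ _ _ _ _ _ _ h1 h2

end Pool.Agent.W696.SR
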